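import Pool.Agent.H12.KG.Targets
import Pool.Agent.H34.KP.NAK

/-!
# KEW, block G, row CLEX
-/

set_option autoImplicit false

namespace Pool.Agent.H60.KG

open AlgebraicGeometry CategoryTheory Pool.Agent.H12.KP Pool.Agent.H12.KG

universe u

section

variable {A S : Type u} [CommRing A] [CommRing S] [Algebra A S] (𝒮 : ℕ → Submodule A S)
  [GradedAlgebra 𝒮]

omit [GradedAlgebra 𝒮] in
lemma finiteType_of_gen (hfg : (𝒮 1).FG) (hadj : Algebra.adjoin A (𝒮 1 : Set S) = ⊤) :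
    Algebra.FiniteType A S := by
  obtain ⟨s, hs⟩ := hfg
  refine ⟨⟨s, top_le_iff.1 ?_⟩⟩
  rw [← hadj, ← hs]
  exact Algebra.adjoin_le (Algebra.span_le_adjoin A (s : Set S))

lemma exists_rel_over [IsLocalRing A] (hfg : (𝒮 1).FG)
    (hadj : Algebra.adjoin A (𝒮 1 : Set S) = ⊤) {π : A} (hπ : π ∈ IsLocalRing.maximalIdeal A)
    {P : Ideal S} (hP : Rel 𝒮 P) : ∃ Q : Ideal S, P ≤ Q ∧ Rel 𝒮 Q ∧ algebraMap A S π ∈ Q := by
  by_contra hcon
  push Not at hcon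
  have h0 : algebraMap A S π ∈ 𝒮 0 := SetLike.algebraMap_mem_graded 𝒮 π
  have hJh : (P ⊔ Ideal.span {algebraMap A S π}).IsHomogeneous 𝒮 := by
    refine hP.2.1.sup ?_
    refine Ideal.homogeneous_span 𝒮 _ ?_
    rintro x hx
    rw [Set.mem_singleton_iff] at hx
    rw [hx]
    exact ⟨0, h0⟩
  have hrad : Ideal.span (𝒮 1 : Set S) ≤ (P ⊔ Ideal.span {algebraMap A S π}).radical := by
    rw [hJh.radical_eq, Ideal.span_le]
    intro x hx
    refine Submodule.mem_sInf.2 ?_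
    rintro J ⟨hJ1, hJ2, hJ3⟩
    by_contra hxJ
    have hRel : Rel 𝒮 J := ⟨hJ3, hJ1, fun hsub => hxJ (hsub hx)⟩
    exact hcon J (le_sup_left.trans hJ2) hRel
      (hJ2 ((le_sup_right : _ ≤ P ⊔ _) (Ideal.mem_span_singleton_self _)))
  obtain ⟨n0, hn0⟩ := Ideal.exists_pow_le_of_le_radical_of_fg hrad
    (Pool.Agent.H34.KP.span_fg 𝒮 hfg)
  have hle : 𝒮 n0 ≤ (P.restrictScalars A) ⊔ IsLocalRing.maximalIdeal A • 𝒮 n0 := by
    intro z hz
    have hzI : z ∈ P ⊔ Ideal.span {algebraMap A S π} := by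
      have h1 := Pool.Agent.H34.KP.pow_le_ideal 𝒮 n0 (Pool.Agent.H34.KP.mem_pow_of_mem 𝒮 hadj hz)
      exact hn0 h1
    obtain ⟨p, hp, w, hw, hzw⟩ := Submodule.mem_sup.1 hzI
    obtain ⟨a, rfl⟩ := Ideal.mem_span_singleton.1 hw
    have h2 : z = (DirectSum.decompose 𝒮 p n0 : S) +
        (DirectSum.decompose 𝒮 (algebraMap A S π * a) n0 : S) := by
      conv_lhs => rw [← DirectSum.decompose_of_mem_same 𝒮 hz, ← hzw]
      rw [DirectSum.decompose_add]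
      rfl
    rw [DirectSum.coe_decompose_mul_of_left_mem_zero 𝒮 h0] at h2
    have h6 : algebraMap A S π * (DirectSum.decompose 𝒮 a n0 : S) ∈
        IsLocalRing.maximalIdeal A • 𝒮 n0 := by
      rw [← Algebra.smul_def]
      exact Submodule.smul_mem_smul hπ (DirectSum.decompose 𝒮 a n0).2
    have h5 : (DirectSum.decompose 𝒮 p n0 : S) ∈ P.restrictScalars A := hP.2.1 n0 hp
    rw [h2]
    exact add_mem ((le_sup_left : _ ≤ P.restrictScalars A ⊔ _) h5)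
      ((le_sup_right : _ ≤ P.restrictScalars A ⊔ _) h6)
  have hfin := Submodule.le_of_le_smul_of_le_jacobson_bot
    (Pool.Agent.H34.KP.graded_fg 𝒮 hadj hfg n0)
    (IsLocalRing.maximalIdeal_le_jacobson ⊥) hle
  obtain ⟨s, hs, hsP⟩ := Set.not_subset.1 hP.2.2
  have h7 : s ^ n0 ∈ 𝒮 n0 := by
    have := SetLike.pow_mem_graded n0 hs
    simpa using this
  exact hsP (hP.1.mem_of_pow_mem n0 (hfin h7))

end

theorem pf_CLEX : S_CLEX.{u} := by
  intro A S _ _ _ _ _ 𝒮 _ hfg hadj π hπ P hP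
  haveI : Algebra.FiniteType A S := finiteType_of_gen 𝒮 hfg hadj
  haveI : IsNoetherianRing S := Algebra.FiniteType.isNoetherianRing A S
  obtain ⟨Q0, h1, h2, h3⟩ := exists_rel_over 𝒮 hfg hadj hπ hP
  obtain ⟨Q, hQ, hmax⟩ := (wellFounded_gt (α := Ideal S)).has_min
    {Q : Ideal S | P ≤ Q ∧ Rel 𝒮 Q ∧ algebraMap A S π ∈ Q} ⟨Q0, h1, h2, h3⟩
  refine ⟨Q, hQ.1, hQ.2.1, hQ.2.2, fun Q' hQ' hle => ?_⟩
  by_contra hne
  exact hmax Q' ⟨hQ.1.trans hle, hQ', hle hQ.2.2⟩ (lt_of_le_of_ne hle fun h => hne h.symm)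

end Pool.Agent.H60.KG
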