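import Pool.Agent.H12.KG.Targets

/-!
# KEW, block G, row ONED
-/

set_option autoImplicit false

namespace Pool.Agent.H60.KG

open AlgebraicGeometry CategoryTheory Pool.Agent.H12.KP Pool.Agent.H12.KG

universe u

theorem pf_ONED : S_ONED.{u} := by
  intro A D _ _ _ _ _ 𝒟 _ L _ _ _ π hπ y hy hrel z hz
  classical
  obtain ⟨d, a, ha, b, hb, hb0, hzb⟩ := hz
  set P : D := algebraMap A D π with hP
  have hP0 : P ∈ 𝒟 0 := SetLike.algebraMap_mem_graded 𝒟 π
  have hPm : ∀ m : ℕ, P ^ m ∈ 𝒟 0 := by
    intro m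
    have := SetLike.pow_mem_graded m hP0
    simpa using this
  have hb0' : b ≠ 0 := fun h => hb0 (by rw [h]; exact Ideal.zero_mem _)
  haveI hyp : y.IsPrime := hy.1.1
  have hPy : P ∈ y := hy.1.2 (Ideal.mem_span_singleton_self _)
  -- the claim
  have claim : ∃ (m : ℕ) (t c : D), t ∉ y ∧ P ^ m * t = b * c := by
    by_contra hcon
    push Not at hcon
    have hdisj : Disjoint ((Ideal.span {b} : Ideal D) : Set D)
        ((Submonoid.powers P ⊔ y.primeCompl : Submonoid D) : Set D) := by
      rw [Set.disjoint_left]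
      intro x hx hx'
      obtain ⟨c, hc⟩ := Ideal.mem_span_singleton'.1 hx
      obtain ⟨p1, hp1, t, ht, hpt⟩ := Submonoid.mem_sup.1 hx'
      obtain ⟨m, rfl⟩ := hp1
      refine hcon m t c ht ?_
      show P ^ m * t = b * c
      have hpt' : P ^ m * t = x := hpt
      rw [hpt', ← hc]
      ring
    obtain ⟨q, hq, hbq, hqd⟩ := Ideal.exists_le_prime_disjoint _ _ hdisj
    have hqy : q ≤ y := by
      intro t ht
      by_contra hty
      exact Set.disjoint_left.1 hqd ht (Submonoid.mem_sup_right hty)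
    have hPq : P ∉ q := by
      intro h
      exact Set.disjoint_left.1 hqd h
        (Submonoid.mem_sup_left (Submonoid.mem_powers P))
    have hbq' : b ∈ q := hbq (Ideal.mem_span_singleton_self b)
    have hlt : q < y := lt_of_le_of_ne hqy fun h => hPq (h ▸ hPy)
    have h1 : q.height + 1 ≤ y.height := Ideal.height_add_one_le_of_lt_of_isPrime hlt
    have h2 : y.height ≤ 1 :=
      Ideal.height_le_one_of_isPrincipal_of_mem_minimalPrimes (Ideal.span {P}) y hy
    have h3 : q.height + 1 ≤ 0 + 1 := by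
      rw [zero_add]
      exact h1.trans h2
    have h4 : q.height = 0 := by
      have := (ENat.add_le_add_iff_right (by simp)).1 h3
      exact le_antisymm this zero_le
    rw [Ideal.height_eq_zero_iff_eq_bot] at h4
    rw [h4] at hbq'
    exact hb0' (by simpa using hbq')
  obtain ⟨m, t, c, hty, htc⟩ := claim
  -- homogeneous components
  obtain ⟨i, hi⟩ : ∃ i, (DirectSum.decompose 𝒟 t i : D) ∉ y := by
    by_contra hcon
    push Not at hcon
    apply hty
    rw [← DirectSum.sum_support_decompose 𝒟 t]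
    exact y.sum_mem fun i _ => hcon i
  have e1 : (DirectSum.decompose 𝒟 (P ^ m * t) i : D) =
      P ^ m * (DirectSum.decompose 𝒟 t i : D) :=
    DirectSum.coe_decompose_mul_of_left_mem_zero 𝒟 (hPm m)
  have hdi : d ≤ i := by
    by_contra hdi
    have e2 := DirectSum.coe_decompose_mul_of_left_mem_of_not_le (b := c) 𝒟 hb hdi
    rw [← htc, e1] at e2
    rcases mul_eq_zero.1 e2 with h | h
    · exact hπ (eq_zero_of_pow_eq_zero h)
    · exact hi (by rw [h]; exact y.zero_mem)
  have e2 := DirectSum.coe_decompose_mul_of_left_mem_of_le (b := c) 𝒟 hb hdi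
  rw [← htc, e1] at e2
  refine ⟨m, i, a * (DirectSum.decompose 𝒟 c (i - d) : D), ?_,
    (DirectSum.decompose 𝒟 t i : D), SetLike.coe_mem _, hi, ?_⟩
  · have := SetLike.mul_mem_graded ha (SetLike.coe_mem (DirectSum.decompose 𝒟 c (i - d)))
    rwa [Nat.add_sub_cancel' hdi] at this
  · have e3 : algebraMap D L P ^ m * z * algebraMap D L (DirectSum.decompose 𝒟 t i : D) =
        z * algebraMap D L (P ^ m * (DirectSum.decompose 𝒟 t i : D)) := by
      rw [map_mul, map_pow]
      ring
    rw [e3, e2, map_mul, ← mul_assoc, hzb, ← map_mul]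

end Pool.Agent.H60.KG
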