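import Pool.Agent.H12.KG.Targets

/-!
# KEW, block G, row P1P: theorem (P1) for `Proj`
-/

set_option autoImplicit false

namespace Pool.Agent.H60.KG

open AlgebraicGeometry CategoryTheory Pool.Agent.H12.KP Pool.Agent.H12.KG

universe u

section General

variable {X : Scheme.{u}} {A : Type u} [CommRing A]

lemma rho_stA (f : X ⟶ Spec (CommRingCat.of A)) {w x : X} (h : w ⤳ x) (a : A) :
    rho h (stA f x a) = kA f w a := by
  unfold rho kA stA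
  have h1 := X.presheaf.germ_stalkSpecializes (U := ⊤) (y := x) trivial h
  rw [← h1]
  rfl

lemma rho_refl_surjective (w : X) : Function.Surjective (rho (specializes_refl w)) := by
  intro z
  obtain ⟨s, hs⟩ := X.residue_surjective w z
  refine ⟨s, ?_⟩
  rw [← hs]
  unfold rho
  rw [TopCat.Presheaf.stalkSpecializes_refl, Category.id_comp]

end General

section Graded

variable {A S : Type u} [CommRing A] [CommRing S] [Algebra A S] (𝒮 : ℕ → Submodule A S)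
  (I : Ideal S)

lemma qgr_fg (hfg : (𝒮 1).FG) : (qgr 𝒮 I 1).FG := hfg.map _

lemma qgr_gen (hadj : Algebra.adjoin A (𝒮 1 : Set S) = ⊤) :
    Algebra.adjoin A (qgr 𝒮 I 1 : Set (S ⧸ I)) = ⊤ := by
  have h1 : (qgr 𝒮 I 1 : Set (S ⧸ I)) = (Ideal.Quotient.mkₐ A I) '' (𝒮 1 : Set S) := rfl
  rw [h1, ← AlgHom.map_adjoin, hadj, Algebra.map_top, AlgHom.range_eq_top]
  exact Ideal.Quotient.mkₐ_surjective A I

end Graded

theorem pf_P1P (h1 : S_P1.{u}) (hQ : S_QGR.{u}) (hQP : S_QPT.{u}) (hPT : S_PTS.{u})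
    (hST : S_STK.{u}) (hC : S_CLEX.{u}) (hU : S_UNI.{u}) (hO : S_ONED.{u}) (hI : S_INTB.{u}) :
    S_P1P.{u} := by
  intro A S _ _ _ _ _ _ _ 𝒮 _ hfg hadj π hπ p hp ε e a r hpe hε ha hea w x hw hx hxc h hh hin
  obtain ⟨t1, t2, t3, t4, t5, t6⟩ := hPT A S 𝒮 hadj
  have hwR : Rel 𝒮 (idl 𝒮 w) := t1 w
  haveI hwp : (idl 𝒮 w).IsPrime := hwR.1
  obtain ⟨hG⟩ := hQ A S 𝒮 (idl 𝒮 w) hwR.2.1
  letI := hG
  obtain ⟨qp1, qp2⟩ := hQP A S 𝒮 (idl 𝒮 w)
  haveI : IsDomain (S ⧸ idl 𝒮 w) := Ideal.Quotient.isDomain _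
  obtain ⟨L, _, _, _⟩ : ∃ (L : Type u) (_ : Field L) (_ : Algebra (S ⧸ idl 𝒮 w) L),
      IsFractionRing (S ⧸ idl 𝒮 w) L := ⟨FractionRing (S ⧸ idl 𝒮 w), inferInstance,
        inferInstance, inferInstance⟩
  obtain ⟨j, j1, j2⟩ := hST A S 𝒮 w L
  have hsurj : Function.Surjective (Ideal.Quotient.mk (idl 𝒮 w)) := Ideal.Quotient.mk_surjective
  have hcm : ∀ P : Ideal S, idl 𝒮 w ≤ P →
      (P.map (Ideal.Quotient.mk (idl 𝒮 w))).comap (Ideal.Quotient.mk (idl 𝒮 w)) = P :=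
    fun P hP => Ideal.comap_map_mk hP
  have hmc : ∀ Q : Ideal (S ⧸ idl 𝒮 w),
      (Q.comap (Ideal.Quotient.mk (idl 𝒮 w))).map (Ideal.Quotient.mk (idl 𝒮 w)) = Q :=
    fun Q => Ideal.map_comap_of_surjective _ hsurj Q
  have hIc : ∀ Q : Ideal (S ⧸ idl 𝒮 w), idl 𝒮 w ≤ Q.comap (Ideal.Quotient.mk (idl 𝒮 w)) := by
    intro Q s hs
    rw [Ideal.mem_comap, Ideal.Quotient.eq_zero_iff_mem.2 hs]
    exact Q.zero_mem
  have halg : ∀ c : A, algebraMap A (S ⧸ idl 𝒮 w) c =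
      Ideal.Quotient.mk (idl 𝒮 w) (algebraMap A S c) := fun c => rfl
  -- closed points
  have hclo_max : ∀ x' : Proj 𝒮, w ⤳ x' → IsClosed ({x'} : Set (Proj 𝒮)) →
      ∀ Q : Ideal (S ⧸ idl 𝒮 w), Rel (qgr 𝒮 (idl 𝒮 w)) Q →
      (idl 𝒮 x').map (Ideal.Quotient.mk (idl 𝒮 w)) ≤ Q →
      Q = (idl 𝒮 x').map (Ideal.Quotient.mk (idl 𝒮 w)) := by
    intro x' hx' hc Q hQ' hle
    have e1 : idl 𝒮 x' ≤ Q.comap (Ideal.Quotient.mk (idl 𝒮 w)) := Ideal.map_le_iff_le_comap.1 hle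
    have e2 := (t5 x').1 hc _ (qp2 Q hQ') e1
    rw [← e2, hmc]
  have hclo : ∀ x' : Proj 𝒮, w ⤳ x' → IsClosed ({x'} : Set (Proj 𝒮)) →
      Clo (qgr 𝒮 (idl 𝒮 w)) π ((idl 𝒮 x').map (Ideal.Quotient.mk (idl 𝒮 w))) := by
    intro x' hx' hc
    have e0 : idl 𝒮 w ≤ idl 𝒮 x' := (t3 w x').1 hx'
    refine ⟨qp1 _ e0 (t1 x'), ?_, hclo_max x' hx' hc⟩
    obtain ⟨Q, hQ1, hQ2⟩ := hC A S 𝒮 hfg hadj π
      ((IsLocalRing.mem_maximalIdeal π).2 hπ.not_isUnit) (idl 𝒮 x') (t1 x')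
    have e3 := (t5 x').1 hc Q hQ2.1 hQ1
    rw [halg]
    apply Ideal.mem_map_of_mem
    rw [← e3]
    exact hQ2.2.1
  have hRC : RelCurve A (S ⧸ idl 𝒮 w) (qgr 𝒮 (idl 𝒮 w)) π := by
    refine ⟨qgr_fg 𝒮 _ hfg, qgr_gen 𝒮 _ hadj, ?_, ?_⟩
    · rw [halg]
      intro h0
      exact hw.hor ((t6 π w).2 (Ideal.Quotient.eq_zero_iff_mem.1 h0))
    · intro P Q hP hQ' hπP hPQ
      obtain ⟨y, hy⟩ := t2 _ (qp2 P hP)
      obtain ⟨x', hx'⟩ := t2 _ (qp2 Q hQ')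
      have e1 : w ⤳ y := (t3 w y).2 (by rw [hy]; exact hIc P)
      have e2 : y ⤳ x' := (t3 y x').2 (by rw [hy, hx']; exact Ideal.comap_mono hPQ.le)
      have e3 : x' ≠ y := by
        rintro rfl
        have : P = Q := by rw [← hmc P, ← hmc Q, ← hy, ← hx']
        exact hPQ.ne this
      have e4 : Sp (projStr 𝒮) π y := (t6 π y).2 (by rw [hy]; exact hπP)
      have e5 := hw.dim y x' e1 e2 e3 e4
      have e6 := hclo x' (e1.trans e2) e5
      rwa [hx', hmc] at e6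
  -- the residue field
  have jinj : Function.Injective j := j.injective
  have jLoc : ∀ f : L, (∃ z, j z = f) ↔ f ∈ Loc (qgr 𝒮 (idl 𝒮 w)) L ⊥ := by
    intro f
    have e1 := j1 w (specializes_refl w) f
    have e2 : (idl 𝒮 w).map (Ideal.Quotient.mk (idl 𝒮 w)) = ⊥ := Ideal.map_quotient_self _
    rw [e2] at e1
    rw [← e1]
    constructor
    · rintro ⟨z, hz⟩
      obtain ⟨s, hs⟩ := rho_refl_surjective w z
      exact ⟨s, by rw [hs, hz]⟩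
    · rintro ⟨s, hs⟩
      exact ⟨_, hs⟩
  have jπ : ∀ c : A, j (kA (projStr 𝒮) w c) =
      algebraMap (S ⧸ idl 𝒮 w) L (algebraMap A (S ⧸ idl 𝒮 w) c) := fun c => by
    rw [j2 c, halg]
  -- the theorem for the graded domain
  obtain ⟨ξ', hξ1, hξ0, ⟨g, hg1, hg0, v, hv1, hv0, hv2, hgv⟩, hother⟩ :=
    h1 A (S ⧸ idl 𝒮 w) (qgr 𝒮 (idl 𝒮 w)) L π hπ hRC p hp ε e a r hpe hε ha hea
      ((idl 𝒮 x).map (Ideal.Quotient.mk (idl 𝒮 w))) (hclo x hx hxc) (j h) ((jLoc _).1 ⟨h, rfl⟩)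
      ((map_ne_zero j).2 hh) (by
        intro y' hy' hyR hyx
        obtain ⟨Y, hY⟩ := t2 _ (qp2 y' hyR)
        have hwY : w ⤳ Y := (t3 w Y).2 (by rw [hY]; exact hIc y')
        have hIx : idl 𝒮 w ≤ idl 𝒮 x := (t3 w x).1 hx
        have hYx : Y ⤳ x := (t3 Y x).2 (by
          rw [hY]
          have := Ideal.comap_mono (f := Ideal.Quotient.mk (idl 𝒮 w)) hyx
          rwa [hcm _ hIx] at this)
        have hπy : algebraMap A (S ⧸ idl 𝒮 w) π ∈ y' :=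
          hy'.1.2 (Ideal.mem_span_singleton_self _)
        have hSpY : Sp (projStr 𝒮) π Y := (t6 π Y).2 (by rw [hY]; exact hπy)
        have hmapY : (idl 𝒮 Y).map (Ideal.Quotient.mk (idl 𝒮 w)) = y' := by rw [hY, hmc]
        have hGen : GenSp (projStr 𝒮) π w Y := by
          refine ⟨hwY, hSpY, fun Y' hwY' hYY' hSp' => ?_⟩
          have f0 : idl 𝒮 w ≤ idl 𝒮 Y' := (t3 w Y').1 hwY'
          have f1 : idl 𝒮 Y' ≤ idl 𝒮 Y := (t3 Y' Y).1 hYY'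
          have f2 : (idl 𝒮 Y').map (Ideal.Quotient.mk (idl 𝒮 w)) ≤ y' := by
            rw [← hmapY]
            exact Ideal.map_mono f1
          have f3 : (Ideal.span {algebraMap A (S ⧸ idl 𝒮 w) π}) ≤
              (idl 𝒮 Y').map (Ideal.Quotient.mk (idl 𝒮 w)) := by
            rw [Ideal.span_singleton_le_iff_mem, halg]
            exact Ideal.mem_map_of_mem _ ((t6 π Y').1 hSp')
          have f4 := hy'.2 ⟨(qp1 _ f0 (t1 Y')).1, f3⟩ f2
          have f5 : (idl 𝒮 Y').map (Ideal.Quotient.mk (idl 𝒮 w)) = y' := le_antisymm f2 f4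
          apply t4
          rw [hY, ← f5, hcm _ f0]
        obtain ⟨u, b, hu, hb, hub⟩ := hin Y hwY hYx hGen
        have hring : ∀ z : (Proj 𝒮).residueField w, ∃ (m : ℕ) (s : (Proj 𝒮).presheaf.stalk Y),
            rho hwY (stA (projStr 𝒮) Y π) ^ m * z = rho hwY s := by
          intro z
          haveI : IsNoetherianRing (S ⧸ idl 𝒮 w) := by
            haveI : Algebra.FiniteType A S := by
              obtain ⟨s, hs⟩ := hfg
              refine ⟨⟨s, top_le_iff.1 ?_⟩⟩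
              rw [← hadj, ← hs]
              exact Algebra.adjoin_le (Algebra.span_le_adjoin A (s : Set S))
            haveI : IsNoetherianRing S := Algebra.FiniteType.isNoetherianRing A S
            exact isNoetherianRing_of_surjective _ _ _ hsurj
          obtain ⟨m, hm⟩ := hO A (S ⧸ idl 𝒮 w) (qgr 𝒮 (idl 𝒮 w)) L π hRC.ne y' hy' hyR (j z)
            ((jLoc _).1 ⟨z, rfl⟩)
          rw [← hmapY, ← j1 Y hwY] at hm
          obtain ⟨s, hs⟩ := hm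
          refine ⟨m, s, jinj ?_⟩
          rw [hs, rho_stA, map_mul, map_pow, jπ]
        obtain ⟨u1, s, hu1, hus⟩ := hI ((Proj 𝒮).presheaf.stalk Y) ((Proj 𝒮).residueField w)
          (rho hwY) p hp (stA (projStr 𝒮) Y π) (stA (projStr 𝒮) Y ε)
          ((IsLocalRing.mem_maximalIdeal _).2 hSpY) (hε.map _) e a r
          (by rw [← map_pow, ← map_mul, ← hpe, map_natCast]) ha hea hring b hb
        rw [rho_stA] at hus
        refine ⟨j (u * u1), (jLoc _).1 ⟨_, rfl⟩, (map_ne_zero j).2 (mul_ne_zero hu hu1),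
          j (rho hwY s), ?_, ?_⟩
        · rw [← hmapY, ← j1 Y hwY]
          exact ⟨s, rfl⟩
        · rw [← jπ, ← map_pow, ← map_pow, ← map_mul, ← map_one j, ← map_add, ← map_mul]
          congr 1
          rw [hub, hus]
          ring)
  -- translation back
  have hunit : ∀ (x' : Proj 𝒮) (hx' : w ⤳ x') (v : L), v ≠ 0 →
      v ∈ Loc (qgr 𝒮 (idl 𝒮 w)) L ((idl 𝒮 x').map (Ideal.Quotient.mk (idl 𝒮 w))) →
      v⁻¹ ∈ Loc (qgr 𝒮 (idl 𝒮 w)) L ((idl 𝒮 x').map (Ideal.Quotient.mk (idl 𝒮 w))) →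
      ∃ V : ((Proj 𝒮).presheaf.stalk x')ˣ, j (rho hx' (V : (Proj 𝒮).presheaf.stalk x')) = v := by
    intro x' hx' v hv0 hv1 hv2
    obtain ⟨s, hs⟩ := (j1 x' hx' v).2 hv1
    obtain ⟨s', hs'⟩ := (j1 x' hx' v⁻¹).2 hv2
    have hne : rho hx' s ≠ 0 := by
      intro h0
      rw [h0, map_zero] at hs
      exact hv0 hs.symm
    obtain ⟨V, hV⟩ := (hU (Proj 𝒮) w x' hx' (rho hx' s)).2 ⟨hne, ⟨s, rfl⟩, ⟨s', by
      apply jinj
      rw [hs', map_inv₀, hs]⟩⟩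
    exact ⟨V, by rw [hV, hs]⟩
  obtain ⟨ξ, hξ⟩ := (jLoc ξ').2 hξ1
  refine ⟨ξ, ?_, ?_, ?_⟩
  · rintro rfl
    rw [map_zero] at hξ
    exact hξ0 hξ.symm
  · obtain ⟨u, hu⟩ := (jLoc g).2 hg1
    obtain ⟨V, hV⟩ := hunit x hx v hv0 hv1 hv2
    refine ⟨u, ?_, V, jinj ?_⟩
    · rintro rfl
      rw [map_zero] at hu
      exact hg0 hu.symm
    · rw [hξ, map_mul, map_mul, map_pow, hu, hV, hgv]
  · intro x' hx' hc' hne
    have hne' : (idl 𝒮 x').map (Ideal.Quotient.mk (idl 𝒮 w)) ≠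
        (idl 𝒮 x).map (Ideal.Quotient.mk (idl 𝒮 w)) := by
      intro heq
      apply hne
      apply t4
      rw [← hcm _ ((t3 w x').1 hx'), heq, hcm _ ((t3 w x).1 hx)]
    obtain ⟨g', hg1', hg0', v', hv1', hv0', hv2', hgv'⟩ := hother _ (hclo x' hx' hc') hne'
    obtain ⟨u, hu⟩ := (jLoc g').2 hg1'
    obtain ⟨V, hV⟩ := hunit x' hx' v' hv0' hv1' hv2'
    refine ⟨u, ?_, V, jinj ?_⟩
    · rintro rfl
      rw [map_zero] at hu
      exact hg0' hu.symm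
    · rw [hξ, map_mul, map_pow, hu, hV, hgv']

end Pool.Agent.H60.KG
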